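import Mathlib

namespace Pool.Agent.H.MP_2869d0_nt

open Nat Finset

def iv (x : ℤ) : ℚ := if 0 ≤ x then 1 / (x.toNat ! : ℚ) else 0

lemma iv_nat (m : ℕ) : iv m = 1 / (m ! : ℚ) := by simp [iv]
lemma iv_neg {x : ℤ} (h : x < 0) : iv x = 0 := by simp [iv, not_le.2 h]

lemma iv_succ (x : ℤ) : iv x = (x + 1) * iv (x + 1) := by
  rcases lt_trichotomy x (-1) with h | h | h
  · rw [iv_neg (by omega), iv_neg (by omega)]; simp
  · subst h; rw [iv_neg (by omega)]; simp
  · obtain ⟨m, rfl⟩ := Int.eq_ofNat_of_zero_le (show 0 ≤ x by omega)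
    have : ((m : ℤ) + 1) = ((m + 1 : ℕ) : ℤ) := by push_cast; rfl
    rw [this, iv_nat, iv_nat, factorial_succ]
    push_cast
    field_simp

lemma choose_iv (a b : ℕ) : (a.choose b : ℚ) = a ! * iv b * iv ((a : ℤ) - b) := by
  rcases le_or_gt b a with h | h
  · obtain ⟨c, rfl⟩ := Nat.exists_eq_add_of_le h
    have : ((b + c : ℕ) : ℤ) - b = c := by push_cast; ring
    rw [this, iv_nat, iv_nat, Nat.cast_choose ℚ h, Nat.add_sub_cancel_left]
    field_simp
  · rw [Nat.choose_eq_zero_of_lt h, iv_neg (x := (a : ℤ) - b) (by omega)]; simp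

def cz (x : ℤ) : ℚ := if 0 ≤ x then (centralBinom x.toNat : ℚ) else 0

lemma cz_nat (m : ℕ) : cz m = centralBinom m := by simp [cz]

lemma odd_ne (x : ℤ) : (2 * (x : ℚ) + 1) ≠ 0 := by
  have : (2 * x + 1 : ℤ) ≠ 0 := by omega
  exact_mod_cast this

lemma cz_succ (x : ℤ) : cz x = (x + 1) * cz (x + 1) / (2 * (2 * x + 1)) := by
  have h0 := odd_ne x
  rcases lt_trichotomy x (-1) with h | h | h
  · simp [cz, show ¬ 0 ≤ x by omega, show ¬ 0 ≤ x + 1 by omega]
  · subst h; simp [cz]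
  · obtain ⟨m, rfl⟩ := Int.eq_ofNat_of_zero_le (show 0 ≤ x by omega)
    have : ((m : ℤ) + 1) = ((m + 1 : ℕ) : ℤ) := by push_cast; rfl
    rw [this, cz_nat, cz_nat]
    have h := Nat.succ_mul_centralBinom_succ m
    have h' : ((m : ℚ) + 1) * centralBinom (m + 1) = 2 * (2 * m + 1) * centralBinom m := by
      exact_mod_cast h
    push_cast at h0 ⊢
    rw [h']
    field_simp

def K (x : ℤ) : ℚ := cz (x + 1) / (2 * (2 * x + 1))

lemma K_nat (m : ℕ) : K m = catalan m := by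
  have h := succ_mul_catalan_eq_centralBinom m
  have h' : ((m : ℚ) + 1) * catalan m = centralBinom m := by exact_mod_cast h
  have h2 := cz_succ m
  rw [cz_nat, ← h'] at h2
  have h0 := odd_ne m
  unfold K
  push_cast at h0 h2 ⊢
  have : (m : ℚ) + 1 ≠ 0 := by positivity
  field_simp
  field_simp at h2
  linarith

end Pool.Agent.H.MP_2869d0_nt
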